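import Mathlib
import Pool.Agent.U93.DedB

/-!
# Quotients of Dedekind zeta functions at zeros of small order: the exact range for `A_n ≤ G ≤ S_n`

`Pool.Agent.H541R3.ART.ArtinData G s₀` is a family of functions with the formal properties of the
Artin L-functions of a Galois extension `E/K` with group `G` near a point `s₀ ≠ 1`: functions
`L χ` for the irreducible characters `χ` of `G`, meromorphic and not identically zero near `s₀`
(Brauer), and `Lin H ψ` for the linear characters `ψ` of the subgroups `H`, without pole at `s₀`
(Artin reciprocity and Hecke), such that `Lin H ψ` is the product of the `L χ ^ ⟨χ|_H, ψ⟩`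
(induction). In particular `Lin H 1` stands for the Dedekind zeta function of the fixed field of
`H`. The Artin L-functions of `E/K` are such a family, so a theorem about all families is a theorem
about Dedekind zeta functions.

The proof. The orders at `s₀` give a Heilbronn function on `G`: a class function whose restriction
to every subgroup `H` has a nonnegative integer multiplicity against every linear character of `H`;
its value at `1` is the order `r` of `ζ_E`. Conversely every Heilbronn function comes from a family
(`Pool.Agent.U93.exists_artin`; Brauer's characterization of characters).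
* In the range every Heilbronn function on `A_n` is constant (`Pool.Agent.U93.alt_range`).
* Beyond the range let `p` be a prime with `p ≤ n < 2 p` and `p = n` or `p` not a Mersenne prime.
  The function `fix - a + p 1_p` with `a = 2` for `n = p` and `a = 1` otherwise, where `1_p` is the
  indicator of the permutations of order divisible by `p`, is a Heilbronn function
  (`Pool.Agent.U93.thf_heilbronn`). The multiplicity of the trivial character of `A_p` in it is
  larger than the multiplicity of the trivial character of `A_{p-1}`.
-/

set_option autoImplicit false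

open Pool.Agent.H541R3.ART Equiv

/-- Let `n ≥ 8` and let `A_n ≤ G ≤ S_n` be the Galois group of `E/K`.
(1) If the order `r` of `ζ_E` at `s₀` is at most `n - 2`, or at most `n - 3` if `n` is prime, then
for all intermediate fields `F = E ^ M ⊆ L = E ^ U` the order of `ζ_F` at `s₀` is at most the order
of `ζ_L`, that is, `ζ_L / ζ_F` has no pole at `s₀`; more generally this holds for the L-functions of a
linear character `ρ` of `M` over `F` and of `ρ|_U` over `L`.
(2) This range is exact: for every larger `r` (and `n ≠ 10`) there are functions with the same
formal properties, with `ζ_E = Lin ⊥ 1` of order `r` at `s₀`, and intermediate fields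
`F = E ^ M ⊆ L = E ^ U` such that `ζ_L / ζ_F` has a pole at `s₀`; here the degree of `L/F` is a prime
`p` and the group `M` of `E/F` is `A_p`. So `n - 2` (`n` composite) and `n - 3` (`n` prime) are the
limits of the method of Heilbronn and Stark for the zeta functions of the subfields of extensions
with alternating or symmetric group. -/
theorem Pool.Agent.Results.MP_9fc8a5_nt.ExactRange.result
    (n : ℕ) (hn : 8 ≤ n) (G : Subgroup (Perm (Fin n))) (hG : alternatingGroup (Fin n) ≤ G)
    (s₀ : ℂ) (r : ℕ) :
    ((r + 3 ≤ n ∨ (r + 2 ≤ n ∧ ¬ n.Prime)) →
      ∀ A : ArtinData G s₀, meromorphicOrderAt (A.Lin ⊥ 1) s₀ = (r : WithTop ℤ) →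
      ∀ (U M : Subgroup G) (hUM : U ≤ M) (ρ : M →* ℂˣ),
        meromorphicOrderAt (A.Lin M ρ) s₀
          ≤ meromorphicOrderAt (A.Lin U (ρ.comp (Subgroup.inclusion hUM))) s₀) ∧
    (¬ (r + 3 ≤ n ∨ (r + 2 ≤ n ∧ ¬ n.Prime)) → n ≠ 10 →
      ∃ A : ArtinData G s₀, meromorphicOrderAt (A.Lin ⊥ 1) s₀ = (r : WithTop ℤ) ∧
        ∃ (p : ℕ) (U M : Subgroup G), p.Prime ∧ U ≤ M ∧
          Nonempty (M ≃* alternatingGroup (Fin p)) ∧ Nat.card M = p * Nat.card U ∧
          meromorphicOrderAt (A.Lin U 1) s₀ < meromorphicOrderAt (A.Lin M 1) s₀) :=
  ⟨fun h A hr U M hUM ρ => Pool.Agent.U93.ded_range hn h G hG A hr U M hUM ρ,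
   fun hr h10 => Pool.Agent.U93.ded_beyond hn h10 hr G hG s₀⟩
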