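import Mathlib
import Pool.Agent.U612.DZ.Mixed

/-!
# Quotients of Dedekind zeta functions at all points: involutions in projective linear groups

`Pool.Agent.H541R3.ART.ArtinData G s₀` is a family of functions with the formal properties of the
Artin L-functions of a Galois extension `E/K` with group `G` near a point `s₀ ≠ 1`: functions
`L χ` for the irreducible characters `χ` of `G`, meromorphic and not identically zero near `s₀`
(Brauer), and `Lin H ψ` for the linear characters `ψ` of the subgroups `H`, without pole at `s₀`
(Artin reciprocity and Hecke), such that `Lin H ψ` is the product of the `L χ ^ ⟨χ|_H, ψ⟩`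
(induction). In particular `Lin H 1` stands for the Dedekind zeta function of the fixed field of
`H`.

The proof shows that for a subgroup `U` of order at most two of one of the groups `P` below the
multiplicity of the trivial character in every Heilbronn function on `P` is at most its multiplicity
on `U`. For `PGL₂(F)` and `PSL₂(F)` this is obtained by averaging over the tori and their normalizers
and, for `PSL₂(F)`, the cubic characters of the tetrahedral group `A₄`; in `SL₂(2^k)` all involutions
are conjugate and lie in the normalizer of a Sylow subgroup whose order divides `2^k + 1`, and the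
permutation character on these Sylow subgroups is a sum of monomial characters.
-/

set_option autoImplicit false

open Pool.Agent.H541R3.ART

namespace Pool.Agent.Results.MP_9fc8a5_nt.InvolutionFields

/-- `P` is isomorphic to a symmetric group of any finite degree, or to `PGL₂(F)` for a finite field
`F` of odd characteristic, or to `PSL₂(F)` for a finite field `F` in which `3` is not a square, or to
`SL₂(F)` for a finite field `F` of characteristic two. -/
def SymOrLinear (P : Type) [Group P] : Prop :=
  (∃ n : ℕ, Nonempty (P ≃* Equiv.Perm (Fin n))) ∨
  ∃ (F : Type) (_ : Field F) (_ : Finite F),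
    ((2 : F) ≠ 0 ∧ Nonempty (P ≃* Matrix.ProjGenLinGroup (Fin 2) F)) ∨
    (¬ IsSquare (3 : F) ∧ Nonempty (P ≃* Matrix.ProjectiveSpecialLinearGroup (Fin 2) F)) ∨
    ((2 : F) = 0 ∧ Nonempty (P ≃* Matrix.SpecialLinearGroup (Fin 2) F))

/-- Let `G` be the Galois group of `E/K`, let `N ≤ M` be subgroups of `G`, `N` normal in `M`, so
that `M / N` is the Galois group of `E^N / E^M`. Suppose that there is a surjection `π` with
solvable kernel from `M / N` onto a product of finitely many groups `P j`, each of which is a
symmetric group, or `PGL₂(q)`, `q` odd, or `PSL₂(q)`, `3` not a square in the field with `q`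
elements, or `SL₂(2^k)` (for example `M / N` is `PGL₂(q)` or `GL₂(q)`, `q` odd, or `A₅`, or `SL₂(q)` with `q = 7` or
`q = 17`). Let `V` be a subgroup with `N ≤ V ≤ M` whose image in every `P j` has order at most two
(for example: `M / N = PGL₂(q)` and `E^V` the fixed field of any involution).

Then for all points `s₀`, all functions with the formal properties of the Artin L-functions of
`E/K` near `s₀`, and all linear characters `ρ` of `M`, the order at `s₀` of the L-function of `ρ`
over `E^M` is at most the order of the L-function of `ρ|_V` over `E^V`; for `ρ = 1`: the quotient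
`ζ_{E^V} / ζ_{E^M}` has no pole at `s₀`. The zeros may have any order. -/
theorem result (G : Type) [Group G] [Finite G] (M N : Subgroup G) [(N.subgroupOf M).Normal]
    (r : ℕ) (P : Fin r → Type) [∀ j, Group (P j)] (hP : ∀ j, SymOrLinear (P j))
    (π : (M ⧸ N.subgroupOf M) →* ∀ j, P j) (hπ : Function.Surjective π)
    (hs : Group.IsSolvable π.ker) (V : Subgroup G) (hNV : N ≤ V) (hVM : V ≤ M)
    (hV : ∀ j, Nat.card ((V.subgroupOf M).map
      ((Pi.evalMonoidHom P j).comp (π.comp (QuotientGroup.mk' (N.subgroupOf M))))) ≤ 2)
    (s₀ : ℂ) (A : ArtinData G s₀) (ρ : M →* ℂˣ) :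
    meromorphicOrderAt (A.Lin M ρ) s₀
      ≤ meromorphicOrderAt (A.Lin V (ρ.comp (Subgroup.inclusion hVM))) s₀ :=
  Pool.Agent.U612.DZ.main_mixed M N r P hP π hπ hs V hNV hVM hV s₀ A ρ

end Pool.Agent.Results.MP_9fc8a5_nt.InvolutionFields
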