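import Pool.Agent.U156.OS.DQ
import Pool.Agent.U156.OS.Dir

/-!
# The quotient `ζ_L / ζ_K` and one-sided bounds for one sequence of real numbers

Let `L / K` be an extension of number fields, `a > 1` and `c < a` real numbers.  The real numbers

  `A_n(a, c) = ∑_{k=1}^{n} C(n-1, k-1) (2(a-c))^k Q^{(k)}(a) / k!`,  `A_0 = Q(a)`,  `Q = ζ_L / ζ_K`,

are finite combinations of the derivatives of `Q` at the point `a` in the half-plane of absolute convergence; in terms of the
Dirichlet coefficients `x_N` of `Q`, `A_n(a, c) = ∑_N x_N N^{-a} P_n(2(a-c) log N)` with the Laguerre polynomials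
`P_n(t) = ∑_{k=1}^{n} C(n-1, k-1) (-t)^k / k!`.

For `c < 1/2` the quotient is entire if and only if `A_n(a, c) ≥ - exp(o(n))`, if and only if `A_n(a, c) ≤ exp(o(n))`: one
sequence and a bound on one side suffice.  For all `c < a` and `0 < r ≤ 1`, the inequality `A_n(a, c) ≥ - exp(o(n)) r^{-n}` holds
if and only if the quotient has no pole in the disc (half-plane `Re s > c` for `r = 1`) `|s - a| < r |s + a - 2c|`.

Proof.  The `A_n` are the Taylor coefficients of `Q` in the coordinate `z = (s - a) / (s + a - 2c)` (`U156/OS/Lag`, `Half`).  The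
segment `0 ≤ z < 1` is the half-line `s ≥ a`, where `Q` is holomorphic; so the theorem of Vivanti and Pringsheim, extended to
coefficients with a lower bound `- C (exp(ε) / r)^n`, shows that such a bound implies convergence in `|z| < r`, and this is
equivalent to the absence of poles there (`U156/OS/Pring`, `Quot`).  The functional equations and the fact that every infinite
place of `K` extends to `L` show that a quotient without poles in `Re s > c`, `c < 1/2`, is entire (`U156/OS/DQ`; the functional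
equation is the one of `R362/NearDed`).
-/

set_option autoImplicit false

namespace Pool.Agent.Results.MP_9fc8a5_nt.OneSidedQuotients

open NumberField Filter Topology

/-- The Dedekind zeta function of `F` for `Re s > 1`, the Dirichlet series which counts the ideals of each norm. -/
noncomputable def zetaD (F : Type) [Field F] [NumberField F] (s : ℂ) : ℂ :=
  LSeries (fun n : ℕ => ((Nat.card {I : Ideal (𝓞 F) // Ideal.absNorm I = n} : ℕ) : ℂ)) s

/-- `ζ_L(s) / ζ_K(s)` for `Re s > 1`. -/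
noncomputable def quotient (K L : Type) [Field K] [NumberField K] [Field L] [NumberField L] (s : ℂ) : ℂ :=
  zetaD L s / zetaD K s

/-- `Z` is the analytic continuation of the Dedekind zeta function of `F` to the complement of `1`. -/
def IsContinuation (F : Type) [Field F] [NumberField F] (Z : ℂ → ℂ) : Prop :=
  DifferentiableOn ℂ Z {1}ᶜ ∧ ∀ s : ℂ, 1 < s.re → Z s = zetaD F s

/-- Q1 for `L / K`: the quotient `ζ_L / ζ_K` is entire. -/
def QuotientEntire (K L : Type) [Field K] [NumberField K] [Field L] [NumberField L] : Prop :=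
  ∃ g : ℂ → ℂ, Differentiable ℂ g ∧ ∀ s : ℂ, 1 < s.re → g s = zetaD L s / zetaD K s

/-- `A_n(a, c) = ∑_{k=1}^{n} C(n-1, k-1) (2(a-c))^k f^{(k)}(a) / k!`, `A_0(a, c) = f(a)` (real parts; for the functions below the
derivatives at `a` are real). -/
noncomputable def A (f : ℂ → ℂ) (a c : ℝ) (n : ℕ) : ℝ :=
  if n = 0 then (f a).re else
    ∑ k ∈ Finset.range n, ((n - 1).choose k : ℝ) * (2 * (a - c)) ^ (k + 1) *
      ((iteratedDeriv (k + 1) f a).re / (k + 1).factorial)

/-- The Laguerre weight `P_n(t) = ∑_{k=1}^{n} C(n-1, k-1) (-t)^k / k!`, `P_0 = 1`. -/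
noncomputable def P (n : ℕ) (t : ℝ) : ℝ :=
  if n = 0 then 1 else ∑ k ∈ Finset.range n, ((n - 1).choose k : ℝ) * ((-t) ^ (k + 1) / (k + 1).factorial)

/-- In the disc (half-plane `Re s > c` for `r = 1`) `|s - a| < r |s + a - 2c|` the order of `Z_K` is at most the order of `Z_L` at
all points `s ≠ 1`: the quotient `Z_L / Z_K` has no pole there. -/
def NoPole (ZK ZL : ℂ → ℂ) (a c r : ℝ) : Prop :=
  ∀ s : ℂ, ‖s - a‖ < r * ‖s + a - 2 * c‖ → s ≠ 1 → analyticOrderAt ZK s ≤ analyticOrderAt ZL s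

/-- **One-sided criterion for the holomorphy of `ζ_L / ζ_K`.**  Let `K`, `L` be number fields and `a > 1`.

1. All derivatives of `ζ_L / ζ_K` at `a` are real, and if `ζ_L(s) / ζ_K(s) = ∑ x_N N^{-s}` for `Re s > 1` with real `x_N`, then
`A_n(a, c) = ∑_N x_N N^{-a} P_n(2(a-c) log N)`.
2. Let `L` be an extension of `K` and `c < 1/2`.  Then `ζ_L / ζ_K` is entire if and only if for each `ε > 0` there is a `C` with
`A_n(a, c) ≥ - C exp(ε n)` for all `n`; and if and only if for each `ε > 0` there is a `C` with `A_n(a, c) ≤ C exp(ε n)` for all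
`n`; and if and only if for each `ε > 0` there is a `C` with `|A_n(a, c)| ≤ C exp(ε n)` for all `n`.
3. The same with `(exp(ε) / r)^n` in place of `exp(ε n)`, for all `c < a` and `0 < r ≤ 1`, characterizes that `ζ_L / ζ_K` has no
pole with `|s - a| < r |s + a - 2c|`.
4. If `ρ ≠ 1` is a pole of `ζ_L / ζ_K`, `c < a` and `0 ≤ δ`, `exp(δ) |ρ - a| < |ρ + a - 2c|`, then infinitely many `A_n(a, c)` are
greater than `exp(δ n)` and infinitely many are less than `- exp(δ n)`. -/
theorem result (K L : Type) [Field K] [NumberField K] [Field L] [NumberField L] (a : ℝ) (ha : 1 < a) :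
    ((∀ k : ℕ, (iteratedDeriv k (quotient K L) a).im = 0) ∧
      ∀ x : ℕ → ℝ, (∀ s : ℂ, 1 < s.re → LSeriesHasSum (fun N => (x N : ℂ)) s (quotient K L s)) →
        ∀ (c : ℝ) (n : ℕ), HasSum (fun N : ℕ => x (N + 1) * ((N : ℝ) + 1) ^ (-a) *
          P n (2 * (a - c) * Real.log ((N : ℝ) + 1))) (A (quotient K L) a c n)) ∧
    (∀ [Algebra K L], ∀ c : ℝ, c < 1 / 2 →
      (QuotientEntire K L ↔ ∀ ε : ℝ, 0 < ε → ∃ C : ℝ, ∀ n : ℕ, -(C * Real.exp (ε * n)) ≤ A (quotient K L) a c n) ∧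
      (QuotientEntire K L ↔ ∀ ε : ℝ, 0 < ε → ∃ C : ℝ, ∀ n : ℕ, A (quotient K L) a c n ≤ C * Real.exp (ε * n)) ∧
      (QuotientEntire K L ↔ ∀ ε : ℝ, 0 < ε → ∃ C : ℝ, ∀ n : ℕ, |A (quotient K L) a c n| ≤ C * Real.exp (ε * n))) ∧
    (∀ ZK ZL : ℂ → ℂ, IsContinuation K ZK → IsContinuation L ZL → ∀ c : ℝ, c < a →
      (∀ r : ℝ, 0 < r → r ≤ 1 →
        (NoPole ZK ZL a c r ↔ ∀ ε : ℝ, 0 < ε → ∃ C : ℝ, ∀ n : ℕ,
          -(C * (Real.exp ε / r) ^ n) ≤ A (quotient K L) a c n) ∧
        (NoPole ZK ZL a c r ↔ ∀ ε : ℝ, 0 < ε → ∃ C : ℝ, ∀ n : ℕ,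
          A (quotient K L) a c n ≤ C * (Real.exp ε / r) ^ n) ∧
        (NoPole ZK ZL a c r ↔ ∀ ε : ℝ, 0 < ε → ∃ C : ℝ, ∀ n : ℕ,
          |A (quotient K L) a c n| ≤ C * (Real.exp ε / r) ^ n)) ∧
      (∀ ρ : ℂ, ρ ≠ 1 → analyticOrderAt ZL ρ < analyticOrderAt ZK ρ → ∀ δ : ℝ, 0 ≤ δ →
        Real.exp δ * ‖ρ - a‖ < ‖ρ + a - 2 * c‖ →
          (∃ᶠ n : ℕ in atTop, Real.exp (δ * n) < A (quotient K L) a c n) ∧
          ∃ᶠ n : ℕ in atTop, A (quotient K L) a c n < -Real.exp (δ * n))) := by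
  have hq : quotient K L = Pool.Agent.U156.OS.DQ.qz K L := rfl
  have hd := Pool.Agent.U156.OS.DQ.qz_diff (K := K) (L := L)
  have hr := Pool.Agent.U156.OS.DQ.qz_conj (K := K) (L := L)
  have htc : ∀ k : ℕ, (Pool.Agent.U156.OS.tc (Pool.Agent.U156.OS.DQ.qz K L) a k).re =
      (iteratedDeriv k (Pool.Agent.U156.OS.DQ.qz K L) a).re / k.factorial := by
    intro k
    unfold Pool.Agent.U156.OS.tc
    have : ((k.factorial : ℂ))⁻¹ = (((k.factorial : ℝ))⁻¹ : ℝ) := by push_cast; rfl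
    rw [this, Complex.re_ofReal_mul, inv_mul_eq_div]
  have hA : ∀ c : ℝ, A (quotient K L) a c = Pool.Agent.U156.OS.AR (Pool.Agent.U156.OS.DQ.qz K L) a c := by
    intro c
    funext n
    rw [hq]
    unfold A Pool.Agent.U156.OS.AR Pool.Agent.U156.OS.compR
    split_ifs
    · simp only [htc]
      simp
    · refine Finset.sum_congr rfl fun k _ => ?_
      simp only [htc]
  have hdisc : ∀ ZK ZL : ℂ → ℂ, IsContinuation K ZK → IsContinuation L ZL → ∀ c : ℝ, c < a →
      ∀ r : ℝ, 0 < r → r ≤ 1 →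
        (NoPole ZK ZL a c r ↔ ∀ ε : ℝ, 0 < ε → ∃ C : ℝ, ∀ n : ℕ,
          -(C * (Real.exp ε / r) ^ n) ≤ A (quotient K L) a c n) ∧
        (NoPole ZK ZL a c r ↔ ∀ ε : ℝ, 0 < ε → ∃ C : ℝ, ∀ n : ℕ,
          A (quotient K L) a c n ≤ C * (Real.exp ε / r) ^ n) ∧
        (NoPole ZK ZL a c r ↔ ∀ ε : ℝ, 0 < ε → ∃ C : ℝ, ∀ n : ℕ,
          |A (quotient K L) a c n| ≤ C * (Real.exp ε / r) ^ n) := by
    intro ZK ZL hK hL c hc r hr0 hr1
    rw [hA]
    exact Pool.Agent.U156.OS.DQ.disc ha hc hr0 hr1 hK hL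
  refine ⟨⟨fun k => ?_, fun x hx c n => ?_⟩, ?_, fun ZK ZL hK hL c hc => ⟨hdisc ZK ZL hK hL c hc, ?_⟩⟩
  · rw [hq]
    have h1 := Pool.Agent.U156.OS.tc_real hd ha hr k
    have h2 := congrArg Complex.im h1
    rw [Complex.ofReal_im] at h2
    unfold Pool.Agent.U156.OS.tc at h2
    have : ((k.factorial : ℂ))⁻¹ = (((k.factorial : ℝ))⁻¹ : ℝ) := by push_cast; rfl
    rw [this, Complex.im_ofReal_mul] at h2
    rcases mul_eq_zero.1 h2.symm with h3 | h3
    · exfalso
      rw [inv_eq_zero] at h3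
      exact (Nat.cast_ne_zero.2 k.factorial_ne_zero) h3
    · exact h3
  · rw [hA]
    exact Pool.Agent.U156.OS.Dir.AR_dir hd ha hx c n
  · intro _ c hc
    rw [hA]
    exact Pool.Agent.U156.OS.DQ.main ha hc
  · intro ρ hρ1 hρ δ hδ hlt
    have hr0 : 0 < Real.exp (-δ) := Real.exp_pos _
    have hr1 : Real.exp (-δ) ≤ 1 := Real.exp_le_one_iff.2 (by linarith)
    obtain ⟨h1, h2, -⟩ := hdisc ZK ZL hK hL c hc _ hr0 hr1
    have hno : ¬ NoPole ZK ZL a c (Real.exp (-δ)) := by
      intro h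
      refine absurd (h ρ ?_ hρ1) (not_le.2 hρ)
      have h3 := mul_lt_mul_of_pos_left hlt hr0
      rwa [← mul_assoc, ← Real.exp_add, neg_add_cancel, Real.exp_zero, one_mul] at h3
    have hpow : ∀ (ε : ℝ) (n : ℕ), (Real.exp ε / Real.exp (-δ)) ^ n = Real.exp (ε * n) * Real.exp (δ * n) := by
      intro ε n
      rw [← Real.exp_sub, ← Real.exp_nat_mul, ← Real.exp_add]
      congr 1
      ring
    -- a bound for large `n` gives a bound for all `n`
    have key : ∀ B : ℕ → ℝ, (∀ᶠ n : ℕ in atTop, B n ≤ Real.exp (δ * n)) → ∃ C : ℝ, ∀ n : ℕ, B n ≤ C * Real.exp (δ * n) := by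
      intro B hB
      obtain ⟨n0, hn0⟩ := eventually_atTop.1 hB
      refine ⟨1 + ∑ n ∈ Finset.range n0, |B n|, fun n => ?_⟩
      have h3 : 0 ≤ ∑ n ∈ Finset.range n0, |B n| := Finset.sum_nonneg fun _ _ => abs_nonneg _
      have h4 : (1 : ℝ) ≤ Real.exp (δ * n) := Real.one_le_exp (by positivity)
      rcases lt_or_ge n n0 with h5 | h5
      · have h6 : |B n| ≤ ∑ n ∈ Finset.range n0, |B n| :=
          Finset.single_le_sum (f := fun n => |B n|) (fun _ _ => abs_nonneg _) (Finset.mem_range.2 h5)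
        calc B n ≤ |B n| := le_abs_self _
          _ ≤ (1 + ∑ n ∈ Finset.range n0, |B n|) * 1 := by linarith
          _ ≤ _ := mul_le_mul_of_nonneg_left h4 (by linarith)
      · have h7 := hn0 n h5
        nlinarith [Real.exp_pos (δ * n)]
    have hmono : ∀ (C ε : ℝ) (n : ℕ), 0 < ε → C * Real.exp (δ * n) ≤ |C| * (Real.exp ε / Real.exp (-δ)) ^ n := by
      intro C ε n hε
      rw [hpow]
      have h3 : (1 : ℝ) ≤ Real.exp (ε * n) := Real.one_le_exp (by positivity)
      have h4 : (0 : ℝ) < Real.exp (δ * n) := Real.exp_pos _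
      have h5 : C * Real.exp (δ * n) ≤ |C| * Real.exp (δ * n) := mul_le_mul_of_nonneg_right (le_abs_self C) h4.le
      have h6 : |C| * Real.exp (δ * n) ≤ |C| * (Real.exp (ε * n) * Real.exp (δ * n)) :=
        mul_le_mul_of_nonneg_left (by nlinarith) (abs_nonneg C)
      linarith
    constructor
    · by_contra hcon
      rw [not_frequently] at hcon
      obtain ⟨C, hC⟩ := key _ (hcon.mono fun n hn => not_lt.1 hn)
      exact hno (h2.2 fun ε hε => ⟨|C|, fun n => (hC n).trans (hmono C ε n hε)⟩)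
    · by_contra hcon
      rw [not_frequently] at hcon
      obtain ⟨C, hC⟩ := key (fun n => -A (quotient K L) a c n)
        (hcon.mono fun n hn => by have := not_lt.1 hn; linarith)
      exact hno (h1.2 fun ε hε => ⟨|C|, fun n => by have := (hC n).trans (hmono C ε n hε); linarith⟩)

end Pool.Agent.Results.MP_9fc8a5_nt.OneSidedQuotients
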