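import Mathlib
import Pool.Agent.U93.Q.Main
import Pool.Agent.U93.S.Occ

/-!
# Quotients of Dedekind zeta functions at zeros of quadratic order

`Pool.Agent.H541R3.ART.ArtinData G s₀` is a family of functions with the formal properties of the
Artin L-functions of a Galois extension `E/K` with group `G` near a point `s₀ ≠ 1`: functions
`L χ` for the irreducible characters `χ` of `G`, meromorphic and not identically zero near `s₀`
(Brauer), and `Lin H ψ` for the linear characters `ψ` of the subgroups `H`, without pole at `s₀`
(Artin reciprocity and Hecke), such that `Lin H ψ` is the product of the `L χ ^ ⟨χ|_H, ψ⟩`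
(induction). In particular `Lin H 1` stands for the Dedekind zeta function of the fixed field of
`H`. The Artin L-functions of `E/K` are such a family, so a theorem about all families is a theorem
about Dedekind zeta functions.

`Pool.Agent.U93.Q.Exc n l`: the number `l` is a prime with `n < 2 l + 4` or a power of two with
`n < l + 4`.

The proof. Let `Θ` be the Heilbronn function on `G`, the class function with the orders of the
L-functions as multiplicities; its value at `1` is the order `r` of `ζ_E`.
* Let `q = 2 ^ a ≥ 4` and `m = ⌊n / q⌋`. If a linear character of an abelian subgroup occurs in `Θ`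
  which is nontrivial on two disjoint even permutations, then these may be replaced by involutions
  which move `q` points, and these by translations of two of `m` blocks which are lines over the
  field with `q` elements; so a character of weight at least two of `F_q ^ m` occurs in `Θ`, and all
  its conjugates, which gives `r ≥ C(m, 2) (q - 1) ^ 2` (`Pool.Agent.U93.S`). Otherwise all mixed
  differences of order two of `Θ` vanish (`Pool.Agent.U93.L`): the contribution of a cycle to `Θ`
  depends only on its length and on the signs of the two parts of the permutation.
* For a prime `q` the group of the translations of the fibres of `ℤ/m × ℤ/q` is normalized by the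
  shift `t : (i, a) ↦ (i + 1, a)`, and no nontrivial linear character of it which is invariant under
  `t` is trivial on the elements with `b_i = 0`. By the additivity of `Θ` such characters do not
  occur, and by an argument of Stark and Foote `Θ` is constant on the coset of `t`. So a cycle of
  length `q m` may be replaced by `q` cycles of length `m` for odd `q`; for `q = 2` this holds on
  the average with transpositions (`Pool.Agent.U93.Q.Wr`, `Pool.Agent.U93.Q.Deriv`).
* It follows that `Θ(g) = a + b ε(g) + (c + d ε(g)) fix(g)` for all `g` without a cycle of
  exceptional length, where `ε` is the sign, `fix` the number of fixed points and `c, d` are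
  nonnegative integers (`Pool.Agent.U93.Q.Comb`, `Pool.Agent.U93.Q.Shape`,
  `Pool.Agent.U93.Q.Alt`). So all multiplicities in `Θ|_M` are nonnegative.
-/

set_option autoImplicit false

open Pool.Agent.H541R3.ART Pool.Agent.U93.Q Equiv

/-- Let `n ≥ 12`, let `A_n ≤ G ≤ S_n` be the Galois group of `E/K`, and let the order `r` of `ζ_E`
at `s₀` be smaller than `C(⌊n / q⌋, 2) (q - 1) ^ 2` for some `q = 2 ^ a ≥ 4` (for `q` about `√n` this
is `(1 - o(1)) n ^ 2 / 2`). Let `M` be a subgroup of `G` none of whose elements has a cycle of prime length `l > (n - 4) / 2` or of length `2 ^ j > n - 4`. Then for all intermediate fields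
`F = E ^ M ⊆ L = E ^ U` the order of `ζ_F` at `s₀` is at most the order of `ζ_L`, that is,
`ζ_L / ζ_F` has no pole at `s₀`; more generally this holds for the L-functions of a linear character
`ρ` of `M` over `F` and of `ρ|_U` over `L`. -/
theorem Pool.Agent.Results.MP_9fc8a5_nt.QuadraticRange.result
    (n : ℕ) (G : Subgroup (Perm (Fin n))) (hG : alternatingGroup (Fin n) ≤ G)
    (s₀ : ℂ) (A : ArtinData G s₀) (r : ℕ)
    (hr : meromorphicOrderAt (A.Lin ⊥ 1) s₀ = (r : WithTop ℤ)) (hn : 12 ≤ n)
    (a : ℕ) (ha : 2 ≤ a) (hrn : r < (n / 2 ^ a).choose 2 * (2 ^ a - 1) ^ 2)
    (U M : Subgroup G) (hUM : U ≤ M)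
    (hM : ∀ h ∈ M, ∀ l ∈ (h : Perm (Fin n)).cycleType, ¬ Exc n l) (ρ : M →* ℂˣ) :
    meromorphicOrderAt (A.Lin M ρ) s₀
      ≤ meromorphicOrderAt (A.Lin U (ρ.comp (Subgroup.inclusion hUM))) s₀ :=
  ded_unif hG A hr hn (Pool.Agent.U93.S.small_two hn ha hrn) U M hUM hM ρ
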